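import Pool.Agent.Helper33.HU.Goals

/-!
# HU packet TRE (helper3)

The schedule numbers count trees: the pairs (exponent, valid parent function) inject into the
acyclic parent functions.
-/

set_option autoImplicit false

namespace Pool.Agent.Helper3.HU

open Finset Pool.Agent.Helper33.HU

/-- the allowed parents of `v`. -/
def OO {n : ℕ} (a : Fin n → ℕ) (v : Fin n) : Finset (Option (Fin n)) :=
  (TT a v).map Function.Embedding.some ∪ (if a v = 0 then {none} else ∅)

lemma card_OO {n : ℕ} (a : Fin n → ℕ) (v : Fin n) : (OO a v).card = ww a v := by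
  classical
  unfold OO ww
  rw [Finset.card_union_of_disjoint]
  · rw [Finset.card_map]
    congr 1
    split_ifs <;> simp
  · rw [Finset.disjoint_left]
    intro x hx hx'
    simp only [Finset.mem_map, Function.Embedding.some_apply] at hx
    obtain ⟨u, _, rfl⟩ := hx
    split_ifs at hx' <;> simp at hx'

lemma mem_OO_none {n : ℕ} {a : Fin n → ℕ} {v : Fin n} (h : none ∈ OO a v) : a v = 0 := by
  unfold OO at h
  rw [Finset.mem_union] at h
  rcases h with h | h
  · simp at h
  · by_contra hne
    rw [if_neg hne] at h
    simp at h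

lemma mem_OO_some {n : ℕ} {a : Fin n → ℕ} {v u : Fin n} (h : some u ∈ OO a v) :
    pos a v < pos a u ∧ pos a u < pos a v + n := by
  unfold OO at h
  rw [Finset.mem_union] at h
  rcases h with h | h
  · simp only [Finset.mem_map, Function.Embedding.some_apply] at h
    obtain ⟨w, hw, hwu⟩ := h
    have : w = u := by simpa using hwu
    subst this
    simpa [TT] using hw
  · split_ifs at h <;> simp at h

lemma acyc_of_valid {n : ℕ} {a : Fin n → ℕ} {f : Fin n → Option (Fin n)}
    (h : ∀ v, f v ∈ OO a v) : Acyc f := by
  refine ⟨fun v => ((n : ℤ) - pos a v).toNat, ?_⟩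
  intro v u hvu
  have h1 := h v
  rw [hvu] at h1
  have h2 := mem_OO_some h1
  have h3 : pos a u ≤ n - 1 := by
    unfold pos
    have := u.isLt
    have h4 : (0 : ℤ) ≤ (n : ℤ) * (a u : ℤ) := by positivity
    omega
  show ((n : ℤ) - pos a u).toNat < ((n : ℤ) - pos a v).toNat
  omega

lemma det_of_valid {n : ℕ} {a a' : Fin n → ℕ} {f : Fin n → Option (Fin n)}
    (h : ∀ v, f v ∈ OO a v) (h' : ∀ v, f v ∈ OO a' v) : a = a' := by
  obtain ⟨d, hd⟩ := acyc_of_valid h
  have key : ∀ m : ℕ, ∀ v, d v < m → a v = a' v := by
    intro m
    induction m with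
    | zero => intro v hv; omega
    | succ m ih =>
      intro v hv
      cases hf : f v with
      | none =>
        have h1 := h v
        have h2 := h' v
        rw [hf] at h1 h2
        rw [mem_OO_none h1, mem_OO_none h2]
      | some u =>
        have h1 := h v
        have h2 := h' v
        rw [hf] at h1 h2
        have hu : a u = a' u := ih u (by have := hd v u hf; omega)
        have h3 := mem_OO_some h1
        have h4 := mem_OO_some h2
        have hpu : pos a u = pos a' u := by unfold pos; rw [hu]
        rw [← hpu] at h4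
        have hdiff : pos a v - pos a' v = (n : ℤ) * ((a' v : ℤ) - (a v : ℤ)) := by
          unfold pos; ring
        have hlt : |pos a v - pos a' v| < n := by
          rw [abs_lt]; constructor <;> linarith [h3.1, h3.2, h4.1, h4.2]
        rw [hdiff, abs_mul] at hlt
        have hn : (0 : ℤ) < n := by
          have := v.isLt
          omega
        rw [abs_of_pos hn] at hlt
        have h5 : |(a' v : ℤ) - (a v : ℤ)| < 1 := by
          by_contra hcon
          push Not at hcon
          nlinarith
        have h6 := abs_lt.mp h5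
        omega
  funext v
  exact key (d v + 1) v (Nat.lt_succ_self _)

theorem gTRE : G_TRE := by
  classical
  intro n s
  have h1 : ∑ a ∈ s, ∏ v, ww a v
      = (s.sigma fun a => Fintype.piFinset (fun v => OO a v)).card := by
    rw [Finset.card_sigma]
    refine Finset.sum_congr rfl fun a _ => ?_
    rw [Fintype.card_piFinset]
    exact Finset.prod_congr rfl fun v _ => (card_OO a v).symm
  rw [h1, Nat.card_eq_fintype_card]
  have h2 : Fintype.card {f : Fin n → Option (Fin n) // Acyc f}
      = (Finset.univ.filter fun f : Fin n → Option (Fin n) => Acyc f).card :=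
    Fintype.card_subtype _
  rw [h2]
  refine Finset.card_le_card_of_injOn (fun p => p.2) ?_ ?_
  · intro p hp
    have hp' : p.1 ∈ s ∧ p.2 ∈ Fintype.piFinset (fun v => OO p.1 v) :=
      Finset.mem_sigma.mp (Finset.mem_coe.mp hp)
    have hp2 := Fintype.mem_piFinset.mp hp'.2
    exact Finset.mem_coe.mpr (Finset.mem_filter.mpr ⟨Finset.mem_univ _, acyc_of_valid hp2⟩)
  · rintro ⟨a, f⟩ hp ⟨a', f'⟩ hq hfe
    have hp' := Fintype.mem_piFinset.mp (Finset.mem_sigma.mp (Finset.mem_coe.mp hp)).2
    have hq' := Fintype.mem_piFinset.mp (Finset.mem_sigma.mp (Finset.mem_coe.mp hq)).2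
    have hfe' : f = f' := hfe
    subst hfe'
    have haa : a = a' := det_of_valid hp' hq'
    subst haa
    rfl

end Pool.Agent.Helper3.HU
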